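import Mathlib
import Pool.Agent.P.MP_21cc92_lc.Borel

set_option autoImplicit false

namespace Pool.Agent.Results.MP_21cc92_lc.BorelNoReduction

/-- The graph `G_0` of the strings `s_n`, the string `s_n` being the first `n` values of `s n`. -/
def G0 (s : ℕ → ℕ → Bool) (x y : ℕ → Bool) : Prop :=
  ∃ n, (∀ i, i < n → x i = s n i ∧ y i = s n i) ∧ x n ≠ y n ∧ ∀ i, n < i → x i = y i

theorem result (s : ℕ → ℕ → Bool)
    (hs : ∀ (u : ℕ → Bool) (m : ℕ), ∃ n, m ≤ n ∧ ∀ i, i < m → s n i = u i) :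
    ∃ G : SimpleGraph (ℕ → Bool),
      @MeasurableSet _ (borel ((ℕ → Bool) × (ℕ → Bool))) {p | G.Adj p.1 p.2} ∧
      MeasureTheory.AnalyticSet {p : (ℕ → Bool) × (ℕ → Bool) | G.Adj p.1 p.2} ∧ G.IsAcyclic ∧
      (¬ ∃ c : (ℕ → Bool) → ℕ, @Measurable _ _ (borel (ℕ → Bool)) ⊤ c ∧
        ∀ x y, G.Adj x y → c x ≠ c y) ∧
      ∀ f : (ℕ → Bool) → (ℕ → Bool),
        (Continuous f ∨ ∀ U, IsOpen U → BaireMeasurableSet (f ⁻¹' U)) →
          ¬ ∀ x y, G0 s x y ↔ G.Adj (f x) (f y) := by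
  refine ⟨Pool.Agent.P.MP_21cc92_lc.Gr s, ?_, Pool.Agent.P.MP_21cc92_lc.Gr_analytic s,
    Pool.Agent.P.MP_21cc92_lc.Gr_acyclic s, ?_, fun f hf hred => ?_⟩
  · rw [← BorelSpace.measurable_eq]
    exact Pool.Agent.P.MP_21cc92_lc.Gr_borel s
  · rw [← BorelSpace.measurable_eq]
    exact Pool.Agent.P.MP_21cc92_lc.no_colouring hs
  · refine Pool.Agent.P.MP_21cc92_lc.no_reduction hs (f := f) (fun U hU => ?_) hred
    rcases hf with hf | hf
    · exact (hU.preimage hf).baireMeasurableSet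
    · exact hf U hU

end Pool.Agent.Results.MP_21cc92_lc.BorelNoReduction
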